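import Pool.Agent.Helper23.X2.SincGe8
import Pool.Agent.Helper89.FA.Main

/-!
Two-sided bounds for the probability of a diagonal slab, by the square wave.
-/

set_option autoImplicit false

open MeasureTheory Set Real
open Pool.Agent.Helper88.Slab (prob ind cube)
open Pool.Agent.Helper89.FA

namespace Pool.Agent.Helper23.X2

/-- The series is at most its first two terms plus the tail. -/
theorem series_le {n : ℕ} (x : Fin n → ℝ) {T : ℝ}
    (hs : Summable (fun k : ℕ =>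
      |∏ j, sinc ((2 * ((k + 2 : ℕ) : ℝ) + 1) * x j)| / (2 * ((k + 2 : ℕ) : ℝ) + 1)))
    (hT : ∑' k : ℕ, |∏ j, sinc ((2 * ((k + 2 : ℕ) : ℝ) + 1) * x j)| /
      (2 * ((k + 2 : ℕ) : ℝ) + 1) ≤ T) :
    ∑' k : ℕ, (-1 : ℝ) ^ k * ((∏ j, sinc ((2 * (k : ℝ) + 1) * x j)) / (2 * (k : ℝ) + 1)) ≤
    (∏ j, sinc (x j)) - (∏ j, sinc (3 * x j)) / 3 + T := by
  set f : ℕ → ℝ := fun k => (-1 : ℝ) ^ k *
    ((∏ j, sinc ((2 * (k : ℝ) + 1) * x j)) / (2 * (k : ℝ) + 1)) with hf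
  have habs : ∀ k : ℕ, ‖f (k + 2)‖ =
      |∏ j, sinc ((2 * ((k + 2 : ℕ) : ℝ) + 1) * x j)| / (2 * ((k + 2 : ℕ) : ℝ) + 1) := by
    intro k
    rw [hf]
    simp only [Real.norm_eq_abs, abs_mul, abs_pow, abs_neg, abs_one, one_pow, one_mul, abs_div]
    congr 1
    exact abs_of_pos (by positivity)
  have hs1 : Summable (fun k : ℕ => ‖f (k + 2)‖) := hs.congr (fun k => (habs k).symm)
  have hs2 : Summable (fun k : ℕ => f (k + 2)) := hs1.of_norm
  have hs3 : Summable f := (summable_nat_add_iff 2).mp hs2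
  have e1 : ∑ k ∈ Finset.range 2, f k + ∑' k, f (k + 2) = ∑' k, f k :=
    hs3.sum_add_tsum_nat_add 2
  have e2 : ‖∑' k, f (k + 2)‖ ≤ ∑' k, ‖f (k + 2)‖ := norm_tsum_le_tsum_norm hs1
  have e3 : ∑' k, ‖f (k + 2)‖ ≤ T := by
    rw [tsum_congr habs]
    exact hT
  have e4 : ∑' k, f (k + 2) ≤ T := by
    have := le_abs_self (∑' k, f (k + 2))
    rw [Real.norm_eq_abs] at e2
    linarith
  have e5 : ∑ k ∈ Finset.range 2, f k = (∏ j, sinc (x j)) - (∏ j, sinc (3 * x j)) / 3 := by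
    rw [Finset.sum_range_succ, Finset.sum_range_one, hf]
    norm_num
    ring
  rw [← e1, e5]
  linarith

/-- The indicator is below the square wave. -/
theorem prob_le_wave {n : ℕ} (a : Fin n → ℝ) (i : Fin n) (hi : a i ≠ 0) {t : ℝ} (ht : 0 < t) :
    prob a t ≤ ∫ x, (if 0 < cos (π / (2 * t) * ∑ j, a j * x j) then (1 : ℝ) else 0) ∂(cube n) := by
  set W : ℝ := ∫ x, (if 0 < cos (π / (2 * t) * ∑ j, a j * x j) then (1 : ℝ) else 0) ∂(cube n) with hW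
  have hW0 : 0 ≤ W := by
    apply integral_nonneg
    intro x
    simp only
    split_ifs <;> simp
  have hw : Integrable (fun x : Fin n → ℝ => (if 0 < cos (π / (2 * t) * ∑ j, a j * x j) then (1 : ℝ) else 0))
      (cube n) := by
    refine Integrable.of_bound ?_ 1 ?_
    · refine (Measurable.ite ?_ measurable_const measurable_const).aestronglyMeasurable
      exact measurableSet_lt measurable_const (by fun_prop)
    · filter_upwards with x
      split_ifs <;> simp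
  have key : ∀ s : ℝ, 0 < s → s < t → prob a t * s ≤ W * t := by
    intro s hs hst
    have h1 : prob a s ≤ W := by
      rw [hW]
      unfold prob
      refine integral_mono (Pool.Agent.Helper88.Slab.ind_integrable_cube s a) hw (fun x => ?_)
      simp only
      set z : ℝ := ∑ j, a j * x j with hz
      unfold ind
      split_ifs with h2 h3 h3
      · exact le_refl _
      · exfalso
        apply h3
        have h4 := abs_le.mp (h2.trans hst.le)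
        have h5 : |z| < t := lt_of_le_of_lt h2 hst
        have h6 := abs_lt.mp h5
        have hp := Real.pi_pos
        apply Real.cos_pos_of_mem_Ioo
        constructor
        · rw [div_mul_eq_mul_div, lt_div_iff₀ (by positivity)]
          nlinarith
        · rw [div_mul_eq_mul_div, div_lt_iff₀ (by positivity)]
          nlinarith
      · norm_num
      · exact le_refl _
    have h2 := Pool.Agent.Helper88.Slab.prob_mono a i hi hs hst.le
    rw [div_le_div_iff₀ ht hs] at h2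
    exact h2.trans (mul_le_mul_of_nonneg_right h1 ht.le)
  by_contra hcon
  push Not at hcon
  have hP : 0 < prob a t := lt_of_le_of_lt hW0 hcon
  have h1 := key (t * (W + prob a t) / (2 * prob a t)) (by positivity) (by
    rw [div_lt_iff₀ (by positivity)]
    nlinarith)
  have h2 : prob a t * (t * (W + prob a t) / (2 * prob a t)) = t * (W + prob a t) / 2 := by
    field_simp
  rw [h2] at h1
  nlinarith

/-- Tail of the series for the diagonal. -/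
theorem tail {n : ℕ} (hn : 6 ≤ n) {x w c7 : ℝ} (hx : (n : ℝ) * x ^ 2 = w) (hw0 : 1 ≤ w)
    (hw1 : w ≤ 2.2) (hc7 : 0 ≤ c7)
    (h7 : ∀ z : ℝ, |z| ≤ 7 * √(w / 6) → |sinc z| ≤ exp (-(c7 * z ^ 2))) :
    Summable (fun k : ℕ => |∏ _j : Fin n, sinc ((2 * ((k + 2 : ℕ) : ℝ) + 1) * x)| /
      (2 * ((k + 2 : ℕ) : ℝ) + 1)) ∧
    ∑' k : ℕ, |∏ _j : Fin n, sinc ((2 * ((k + 2 : ℕ) : ℝ) + 1) * x)| /
      (2 * ((k + 2 : ℕ) : ℝ) + 1) ≤
      exp (-(1 / 6 * 5 ^ 2 * w)) / 5 + exp (-(c7 * 7 ^ 2 * w)) / 7 +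
      exp (-(0.064 * 9 ^ 2 * w)) / 9 + 1 / (36972 * w ^ 3) := by
  have hm2 : √(w / 6) ^ 2 = w / 6 := Real.sq_sqrt (by linarith)
  set m : ℝ := √(w / 6) with hm
  have hm0 : 0 ≤ m := Real.sqrt_nonneg _
  have hn' : (6 : ℝ) ≤ (n : ℝ) := by exact_mod_cast hn
  have hsum : ∑ _j : Fin n, x ^ 2 = w := by simp [hx]
  have hxm : |x| ≤ m := by
    apply abs_le_of_sq_le_sq _ hm0
    rw [hm2]
    nlinarith [sq_nonneg x]
  have hml : 0.4 ≤ m := by
    by_contra h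
    push Not at h
    nlinarith
  have hmu : m ≤ 0.6056 := by
    by_contra h
    push Not at h
    nlinarith
  have hp1 := Real.pi_gt_d6
  have hp2 := Real.pi_lt_d6
  have hfar := far_all (fun _ : Fin n => x) (w := w) (m := m) hsum.ge (fun _ => hxm)
    (by linarith) (by nlinarith)
  have hlast : exp (-(w / m ^ 2 - 3) * log (11 * m)) / (6000 * m ^ 3) ≤ 1 / (36972 * w ^ 3) := by
    have e1 : w / m ^ 2 = 6 := by
      rw [hm2]
      field_simp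
    have h11 : 0 < 11 * m := by linarith
    have e2 : exp (-(w / m ^ 2 - 3) * log (11 * m)) = 1 / (11 * m) ^ 3 := by
      rw [e1, show (-(6 - 3 : ℝ) * log (11 * m)) = -(((3 : ℕ) : ℝ) * log (11 * m)) by push_cast; ring,
        Real.exp_neg, Real.exp_nat_mul, Real.exp_log h11, one_div]
    rw [e2, div_div]
    have e3 : (11 * m) ^ 3 * (6000 * m ^ 3) = 7986000 * (w / 6) ^ 3 := by
      rw [← hm2]
      ring
    rw [e3]
    apply one_div_le_one_div_of_le (by positivity)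
    have : 0 < w ^ 3 := by positivity
    nlinarith
  have h5 := TailB.prod_all (fun _ : Fin n => x) (K := 5) (m := m) (c := 1 / 6) (r := w)
    (by norm_num) (by norm_num) hsum.ge (fun _ => hxm) (fun z hz => by
      have := abs_sinc_357 (z := z) (by linarith)
      rw [show (1 / 6 * z ^ 2 : ℝ) = z ^ 2 / 6 by ring]
      exact this)
  have h7' := TailB.prod_all (fun _ : Fin n => x) (K := 7) (m := m) (c := c7) (r := w)
    (by norm_num) hc7 hsum.ge (fun _ => hxm) h7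
  have h9 := TailB.prod_all (fun _ : Fin n => x) (K := 9) (m := m) (c := 0.064) (r := w)
    (by norm_num) (by norm_num) hsum.ge (fun _ => hxm) (fun z hz => abs_sinc_550 (by linarith))
  obtain ⟨s1, s2⟩ := TailB.split3 (fun _ : Fin n => x) h5 h7' h9 ⟨hfar.1, hfar.2.trans hlast⟩
  exact ⟨s1, s2⟩

section

variable {n : ℕ} {c : ℝ}

lemma n_mul {w : ℝ} (hc : (n : ℝ) * c ^ 2 = 1) {x : ℝ} (hx : x ^ 2 = w * c ^ 2) (α β γ δ : ℝ) :
    (n : ℝ) * (α * x ^ 2 + β * x ^ 4 + γ * x ^ 6 + δ * x ^ 8) =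
      α * w + β * (w ^ 2 * c ^ 2) + γ * (w ^ 3 * (c ^ 2) ^ 2) + δ * (w ^ 4 * (c ^ 2) ^ 3) := by
  have e2 : x ^ 4 = (w * c ^ 2) ^ 2 := by rw [← hx]; ring
  have e3 : x ^ 6 = (w * c ^ 2) ^ 3 := by rw [← hx]; ring
  have e4 : x ^ 8 = (w * c ^ 2) ^ 4 := by rw [← hx]; ring
  rw [e2, e3, e4, hx]
  have : (n : ℝ) * (α * (w * c ^ 2) + β * (w * c ^ 2) ^ 2 + γ * (w * c ^ 2) ^ 3 + δ * (w * c ^ 2) ^ 4)
    = ((n : ℝ) * c ^ 2) * (α * w + β * (w ^ 2 * c ^ 2) + γ * (w ^ 3 * (c ^ 2) ^ 2) +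
      δ * (w ^ 4 * (c ^ 2) ^ 3)) := by ring
  rw [this, hc, one_mul]

lemma pow_le {w : ℝ} (hc : (n : ℝ) * c ^ 2 = 1) {x : ℝ} (hx : x ^ 2 = w * c ^ 2) (hp : |x| ≤ π) :
    sinc x ^ n ≤ exp (-(w / 6 + w ^ 2 * c ^ 2 / 180 + w ^ 3 * (c ^ 2) ^ 2 / 2835)) := by
  have h0 : 0 ≤ sinc x := Pool.Agent.Helper88.Slab.sinc_nonneg hp
  have h1 := pow_le_pow_left₀ h0 (sinc_le6 hp) n
  refine h1.trans (le_of_eq ?_)
  rw [← Real.exp_nat_mul]
  congr 1
  have := n_mul hc hx (1 / 6) (1 / 180) (1 / 2835) 0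
  linarith

lemma pow_ge {w : ℝ} (hc : (n : ℝ) * c ^ 2 = 1) {x : ℝ} (hx : x ^ 2 = w * c ^ 2) (hp : |x| ≤ 1.75) :
    exp (-(w / 6 + w ^ 2 * c ^ 2 / 180 + w ^ 3 * (c ^ 2) ^ 2 / 2835 + w ^ 4 * (c ^ 2) ^ 3 / 26000)) ≤
      sinc x ^ n := by
  have h1 := pow_le_pow_left₀ (exp_pos _).le (sinc_ge8 hp) n
  refine le_trans (le_of_eq ?_) h1
  rw [← Real.exp_nat_mul]
  congr 1
  have := n_mul hc hx (1 / 6) (1 / 180) (1 / 2835) (1 / 26000)
  linarith

/-- Upper bound of the probability of the complement. -/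
theorem T_le (hn : 6 ≤ n) (hc0 : 0 < c) (hc : (n : ℝ) * c ^ 2 = 1) {t w c7 : ℝ} (ht : 0 < t)
    (hw : (π / (2 * t)) ^ 2 = w) (hw0 : 1 ≤ w) (hw1 : w ≤ 2.2) (hc7 : 0 ≤ c7)
    (h7 : ∀ z : ℝ, |z| ≤ 7 * √(w / 6) → |sinc z| ≤ exp (-(c7 * z ^ 2))) :
    1 - prob (fun _ : Fin n => c) t ≤ 1 / 2 - (2 / π) *
      (exp (-(w / 6 + w ^ 2 * c ^ 2 / 180 + w ^ 3 * (c ^ 2) ^ 2 / 2835 +
        w ^ 4 * (c ^ 2) ^ 3 / 26000)) -
      exp (-((9 * w) / 6 + (9 * w) ^ 2 * c ^ 2 / 180 + (9 * w) ^ 3 * (c ^ 2) ^ 2 / 2835)) / 3 -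
      (exp (-(1 / 6 * 5 ^ 2 * w)) / 5 + exp (-(c7 * 7 ^ 2 * w)) / 7 +
      exp (-(0.064 * 9 ^ 2 * w)) / 9 + 1 / (36972 * w ^ 3))) + 2 * exp (-(27 / 2) * t ^ 2) := by
  have hn' : (6 : ℝ) ≤ (n : ℝ) := by exact_mod_cast hn
  have hcs : c ^ 2 ≤ 1 / 6 := by nlinarith [sq_nonneg c]
  have ha : ∑ j : Fin n, (fun _ : Fin n => c) j ^ 2 = 1 := by simp [hc]
  have hθ : 0 < π / (2 * t) := by positivity
  obtain ⟨x, hx⟩ : ∃ x, x = c * (π / (2 * t)) := ⟨_, rfl⟩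
  have hx2 : x ^ 2 = w * c ^ 2 := by rw [hx, mul_pow, hw]; ring
  have hnx : (n : ℝ) * x ^ 2 = w := by rw [hx2, mul_left_comm, hc, mul_one]
  have hxs : x ^ 2 ≤ 0.3667 := by rw [hx2]; nlinarith [sq_nonneg c]
  have hxa : |x| ≤ 0.6056 := by
    apply abs_le_of_sq_le_sq _ (by norm_num)
    norm_num
    linarith
  obtain ⟨s1, s2⟩ := tail hn hnx hw0 hw1 hc7 h7
  have h1 := CaseB.series_ge (fun _ : Fin n => x) s1 s2
  have i : Fin n := ⟨0, by omega⟩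
  have e0 : ∏ _j : Fin n, sinc x = sinc x ^ n := by simp
  have e1 : ∏ _j : Fin n, sinc (3 * x) = sinc (3 * x) ^ n := by simp
  rw [e0, e1] at h1
  have h2 : 1 / 2 + (2 / π) * (sinc x ^ n - sinc (3 * x) ^ n / 3 -
      (exp (-(1 / 6 * 5 ^ 2 * w)) / 5 + exp (-(c7 * 7 ^ 2 * w)) / 7 +
      exp (-(0.064 * 9 ^ 2 * w)) / 9 + 1 / (36972 * w ^ 3))) - 2 * exp (-(27 / 2) * t ^ 2) ≤
      prob (fun _ : Fin n => c) t :=
    wave_lower (fun _ : Fin n => c) ha (i := i) hc0.ne' ht (by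
      rw [← hx]
      exact h1)
  have h3 := pow_ge hc hx2 (hxa.trans (by norm_num))
  have hx3 : (3 * x) ^ 2 = (9 * w) * c ^ 2 := by rw [mul_pow, hx2]; ring
  have h4 := pow_le hc hx3 (by
    rw [abs_mul]
    norm_num
    linarith [Real.pi_gt_d6])
  have hpi : 0 < 2 / π := by positivity
  have h5 := mul_le_mul_of_nonneg_left h3 hpi.le
  have h6 := mul_le_mul_of_nonneg_left h4 hpi.le
  nlinarith

/-- Lower bound of the probability of the complement. -/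
theorem T_ge (hn : 6 ≤ n) (hc0 : 0 < c) (hc : (n : ℝ) * c ^ 2 = 1) {t w c7 : ℝ} (ht : 0 < t)
    (hw : (π / (2 * t)) ^ 2 = w) (hw0 : 1 ≤ w) (hw1 : w ≤ 2.01) (hc7 : 0 ≤ c7)
    (h7 : ∀ z : ℝ, |z| ≤ 7 * √(w / 6) → |sinc z| ≤ exp (-(c7 * z ^ 2))) :
    1 / 2 - (2 / π) *
      (exp (-(w / 6 + w ^ 2 * c ^ 2 / 180 + w ^ 3 * (c ^ 2) ^ 2 / 2835)) -
      exp (-((9 * w) / 6 + (9 * w) ^ 2 * c ^ 2 / 180 + (9 * w) ^ 3 * (c ^ 2) ^ 2 / 2835 +
        (9 * w) ^ 4 * (c ^ 2) ^ 3 / 26000)) / 3 +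
      (exp (-(1 / 6 * 5 ^ 2 * w)) / 5 + exp (-(c7 * 7 ^ 2 * w)) / 7 +
      exp (-(0.064 * 9 ^ 2 * w)) / 9 + 1 / (36972 * w ^ 3))) ≤ 1 - prob (fun _ : Fin n => c) t := by
  have hn' : (6 : ℝ) ≤ (n : ℝ) := by exact_mod_cast hn
  have hcs : c ^ 2 ≤ 1 / 6 := by nlinarith [sq_nonneg c]
  have hθ : 0 < π / (2 * t) := by positivity
  obtain ⟨x, hx⟩ : ∃ x, x = c * (π / (2 * t)) := ⟨_, rfl⟩
  have hx2 : x ^ 2 = w * c ^ 2 := by rw [hx, mul_pow, hw]; ring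
  have hnx : (n : ℝ) * x ^ 2 = w := by rw [hx2, mul_left_comm, hc, mul_one]
  have hxs : x ^ 2 ≤ 0.335 := by rw [hx2]; nlinarith [sq_nonneg c]
  have hxa : |x| ≤ 0.58 := by
    apply abs_le_of_sq_le_sq _ (by norm_num)
    norm_num
    linarith
  obtain ⟨s1, s2⟩ := tail hn hnx hw0 (hw1.trans (by norm_num)) hc7 h7
  have h1 := series_le (fun _ : Fin n => x) s1 s2
  have i : Fin n := ⟨0, by omega⟩
  have h2 := prob_le_wave (fun _ : Fin n => c) i hc0.ne' ht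
  rw [(wave_expect (fun _ : Fin n => c) i hc0.ne' ht).2] at h2
  rw [← hx] at h2
  have e0 : ∏ _j : Fin n, sinc x = sinc x ^ n := by simp
  have e1 : ∏ _j : Fin n, sinc (3 * x) = sinc (3 * x) ^ n := by simp
  rw [e0, e1] at h1
  have h3 := pow_le hc hx2 (hxa.trans (by linarith [Real.pi_gt_d6]))
  have hx3 : (3 * x) ^ 2 = (9 * w) * c ^ 2 := by rw [mul_pow, hx2]; ring
  have h4 := pow_ge hc hx3 (by
    rw [abs_mul]
    norm_num
    linarith)
  have hpi : 0 < 2 / π := by positivity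
  have h5 := mul_le_mul_of_nonneg_left h1 hpi.le
  have h6 := mul_le_mul_of_nonneg_left h3 hpi.le
  have h7 := mul_le_mul_of_nonneg_left h4 hpi.le
  nlinarith

end

end Pool.Agent.Helper23.X2
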