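import Pool.Agent.Helper23.X2.Bounds

/-!
Combination of the numerical bounds for the comparison of two diagonal slabs.
-/

set_option autoImplicit false

open MeasureTheory Set Real
open Pool.Agent.Helper88.Slab (prob ind cube)
open Pool.Agent.Helper89.FA

namespace Pool.Agent.Helper23.X2

/-- Upper bound for `exp (-a)`. -/
lemma exp_up (n : ℕ) {a f b : ℝ} (hf : 0 ≤ f) (ha : (n : ℝ) + f ≤ a)
    (hb : 1 ≤ b * ((2.7182818283 : ℝ) ^ n *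
      (1 + f + f ^ 2 / 2 + f ^ 3 / 6 + f ^ 4 / 24 + f ^ 5 / 120 + f ^ 6 / 720 + f ^ 7 / 5040))) :
    exp (-a) ≤ b := by
  have h1 : (2.7182818283 : ℝ) ^ n ≤ exp n := by
    have := Real.exp_one_gt_d9
    calc (2.7182818283 : ℝ) ^ n ≤ (exp 1) ^ n := by
          apply pow_le_pow_left₀ (by norm_num)
          exact this.le
      _ = exp n := by rw [← Real.exp_nat_mul]; simp
  have h2 : 1 + f + f ^ 2 / 2 + f ^ 3 / 6 + f ^ 4 / 24 + f ^ 5 / 120 + f ^ 6 / 720 + f ^ 7 / 5040 ≤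
      exp f := by
    have := Real.sum_le_exp_of_nonneg hf 8
    simp [Finset.sum_range_succ, Nat.factorial] at this
    linarith
  have h3 : (2.7182818283 : ℝ) ^ n * (1 + f + f ^ 2 / 2 + f ^ 3 / 6 + f ^ 4 / 24 + f ^ 5 / 120 +
      f ^ 6 / 720 + f ^ 7 / 5040) ≤ exp a := by
    calc (2.7182818283 : ℝ) ^ n * (1 + f + f ^ 2 / 2 + f ^ 3 / 6 + f ^ 4 / 24 + f ^ 5 / 120 +
        f ^ 6 / 720 + f ^ 7 / 5040) ≤ exp n * exp f := by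
          apply mul_le_mul h1 h2 (by positivity) (by positivity)
      _ = exp (n + f) := by rw [Real.exp_add]
      _ ≤ exp a := Real.exp_le_exp.mpr ha
  have hpos : 0 < (2.7182818283 : ℝ) ^ n * (1 + f + f ^ 2 / 2 + f ^ 3 / 6 + f ^ 4 / 24 +
      f ^ 5 / 120 + f ^ 6 / 720 + f ^ 7 / 5040) := by positivity
  have hb0 : 0 ≤ b := by
    by_contra h
    push Not at h
    nlinarith
  rw [Real.exp_neg]
  rw [inv_le_iff_one_le_mul₀ (exp_pos a)]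
  calc (1 : ℝ) ≤ b * ((2.7182818283 : ℝ) ^ n * (1 + f + f ^ 2 / 2 + f ^ 3 / 6 + f ^ 4 / 24 +
      f ^ 5 / 120 + f ^ 6 / 720 + f ^ 7 / 5040)) := hb
    _ ≤ b * exp a := by apply mul_le_mul_of_nonneg_left h3 hb0

/-- Lower bound for `exp (-a)`. -/
lemma exp_lo (n : ℕ) {a f b : ℝ} (hf : 0 ≤ f) (hb0 : 0 ≤ b) (ha : a ≤ (n : ℝ) + f)
    (hb : b * (2.7182818286 : ℝ) ^ n ≤
      1 - f + f ^ 2 / 2 - f ^ 3 / 6 + f ^ 4 / 24 - f ^ 5 / 120 + f ^ 6 / 720 - f ^ 7 / 5040) :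
    b ≤ exp (-a) := by
  have h1 : exp n ≤ (2.7182818286 : ℝ) ^ n := by
    have := Real.exp_one_lt_d9
    calc exp n = (exp 1) ^ n := by rw [← Real.exp_nat_mul]; simp
      _ ≤ (2.7182818286 : ℝ) ^ n := by
          apply pow_le_pow_left₀ (exp_pos _).le
          exact this.le
  have h2 := Pool.Agent.Helper88.Slab.exp_neg_ge7 f hf
  have h3 : b * exp n ≤ exp (-f) := by
    calc b * exp n ≤ b * (2.7182818286 : ℝ) ^ n := mul_le_mul_of_nonneg_left h1 hb0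
      _ ≤ _ := hb
      _ ≤ exp (-f) := by linarith
  have h4 : b ≤ exp (-f) * exp (-(n : ℝ)) := by
    rw [Real.exp_neg (n : ℝ), ← div_eq_mul_inv, le_div_iff₀ (exp_pos _)]
    exact h3
  calc b ≤ exp (-f) * exp (-(n : ℝ)) := h4
    _ = exp (-((n : ℝ) + f)) := by rw [← Real.exp_add]; congr 1; ring
    _ ≤ exp (-a) := exp_le_exp.mpr (by linarith)

lemma final_step {U L X0 X1 Y0 Y1 τ τ' ε κ : ℝ} (hκ : 0 ≤ κ)
    (hU : U ≤ 1 / 2 - (2 / π) * (X0 - X1 / 3 - τ) + 2 * ε)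
    (hL : 1 / 2 - (2 / π) * (Y0 - Y1 / 3 + τ') ≤ L)
    (h : 0 ≤ π * (κ - 1) / 4 - π * ε - κ * τ' - τ + X0 - κ * Y0 + κ * Y1 / 3 - X1 / 3) :
    U ≤ κ * L := by
  have h1 := mul_le_mul_of_nonneg_left hL hκ
  refine hU.trans (le_trans ?_ h1)
  have hp := Real.pi_pos
  have e : κ * (1 / 2 - (2 / π) * (Y0 - Y1 / 3 + τ')) -
      (1 / 2 - (2 / π) * (X0 - X1 / 3 - τ) + 2 * ε) =
      (2 / π) * (π * (κ - 1) / 4 - π * ε - κ * τ' - τ + X0 - κ * Y0 + κ * Y1 / 3 - X1 / 3) := by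
    field_simp
    ring
  have h2 : 0 ≤ (2 / π) * (π * (κ - 1) / 4 - π * ε - κ * τ' - τ + X0 - κ * Y0 + κ * Y1 / 3 - X1 / 3) :=
    mul_nonneg (by positivity) h
  linarith

lemma cube_le {u : ℝ} (hu1 : u ≤ 1 / 6) : u ^ 3 ≤ u ^ 2 / 6 := by
  nlinarith [sq_nonneg u]

lemma sq_le_one36 {u : ℝ} (hu0 : 0 ≤ u) (hu1 : u ≤ 1 / 6) : u ^ 2 ≤ 1 / 36 := by
  nlinarith

lemma exp_two {z : ℝ} (h5 : 0 ≤ z) (h6 : z ≤ 1) : exp (-z) ≤ 1 - z + z ^ 2 / 2 := by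
  have := Pool.Agent.Helper88.Slab.exp_neg_le z h5
  have : z ^ 4 ≤ z ^ 3 := by
    have : 0 ≤ z ^ 3 := by positivity
    nlinarith
  nlinarith [pow_nonneg h5 3]

lemma pos_three {z : ℝ} (h6 : z ≤ 1) : 0 ≤ 1 - z + z ^ 2 / 2 - z ^ 3 / 6 := by
  have : z ^ 3 ≤ z ^ 2 := by
    have : 0 ≤ z ^ 2 := by positivity
    nlinarith
  nlinarith [sq_nonneg z]

lemma combine {u κ w v e0 f0 e1 f1 ta tb g α1 α2 γ1 γ2 β1 β2 δ1 δ2 τ τ' ε : ℝ} (hu0 : 0 ≤ u)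
    (hu1 : u ≤ 1 / 6) (hκ : 1 ≤ κ) (hw : 0 ≤ w) (hv : 0 ≤ v)
    (H0 : e0 ≤ exp (-(w / 6))) (H1 : exp (-(v / 6)) ≤ f0)
    (H2 : exp (-((9 * w) / 6)) ≤ e1) (H3 : f1 ≤ exp (-((9 * v) / 6)))
    (A1 : w ^ 2 / 180 ≤ α1) (A2 : w ^ 3 / 2835 + w ^ 4 / 156000 ≤ α2)
    (G1 : γ1 ≤ v ^ 2 / 180) (G2 : γ2 ≤ v ^ 3 / 2835)
    (B1 : β1 ≤ 9 / 20 * w ^ 2) (B2 : β2 ≤ 9 / 35 * w ^ 3)
    (D1 : 9 / 20 * v ^ 2 ≤ δ1) (D2 : 9 / 35 * v ^ 3 + 6561 / 156000 * v ^ 4 ≤ δ2)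
    (hγ1 : 0 ≤ γ1) (hγ2 : 0 ≤ γ2) (hβ1 : 0 ≤ β1)
    (hβ2 : 0 ≤ β2) (hδ : δ1 / 6 + δ2 / 36 ≤ 1) (hα : α1 / 6 + α2 / 36 ≤ 1)
    (hγ : γ1 / 6 + γ2 / 36 ≤ 1)
    (ht : τ ≤ ta) (ht' : τ' ≤ tb) (hg : ε ≤ g) (hg0 : 0 ≤ g)
    (P : 0 ≤ 3.141592 * (κ - 1) / 4 - 3.141593 * g - κ * tb - ta +
      e0 * (1 - (α1 * u + α2 * u ^ 2)) -
      κ * (f0 * (1 - (γ1 * u + γ2 * u ^ 2) + (γ1 * u + γ2 * u ^ 2) ^ 2 / 2)) +
      κ * (f1 * (1 - (δ1 * u + δ2 * u ^ 2) + (δ1 * u + δ2 * u ^ 2) ^ 2 / 2 -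
        (δ1 * u + δ2 * u ^ 2) ^ 3 / 6)) / 3 -
      e1 * (1 - (β1 * u + β2 * u ^ 2) + (β1 * u + β2 * u ^ 2) ^ 2 / 2 -
        (β1 * u + β2 * u ^ 2) ^ 3 / 6 + (β1 * u + β2 * u ^ 2) ^ 4 / 24) / 3) :
    0 ≤ π * (κ - 1) / 4 - π * ε - κ * τ' - τ +
      exp (-(w / 6 + w ^ 2 * u / 180 + w ^ 3 * u ^ 2 / 2835 + w ^ 4 * u ^ 3 / 26000)) -
      κ * exp (-(v / 6 + v ^ 2 * u / 180 + v ^ 3 * u ^ 2 / 2835)) +
      κ * exp (-((9 * v) / 6 + (9 * v) ^ 2 * u / 180 + (9 * v) ^ 3 * u ^ 2 / 2835 +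
        (9 * v) ^ 4 * u ^ 3 / 26000)) / 3 -
      exp (-((9 * w) / 6 + (9 * w) ^ 2 * u / 180 + (9 * w) ^ 3 * u ^ 2 / 2835)) / 3 := by
  have hκ0 : 0 ≤ κ := by linarith
  have hp1 := Real.pi_gt_d6
  have hp2 := Real.pi_lt_d6
  have hu2 : 0 ≤ u ^ 2 := sq_nonneg u
  have hu3 : u ^ 3 ≤ u ^ 2 / 6 := cube_le hu1
  have hu4 : u ^ 2 ≤ 1 / 36 := sq_le_one36 hu0 hu1
  have hw4 : 0 ≤ w ^ 4 := by positivity
  have hv4 : 0 ≤ v ^ 4 := by positivity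
  -- X0
  have x0 : e0 * (1 - (α1 * u + α2 * u ^ 2)) ≤
      exp (-(w / 6 + w ^ 2 * u / 180 + w ^ 3 * u ^ 2 / 2835 + w ^ 4 * u ^ 3 / 26000)) := by
    have h1 : w ^ 2 * u / 180 + w ^ 3 * u ^ 2 / 2835 + w ^ 4 * u ^ 3 / 26000 ≤ α1 * u + α2 * u ^ 2 := by
      have a1 := mul_le_mul_of_nonneg_right A1 hu0
      have a2 := mul_le_mul_of_nonneg_right A2 hu2
      have a3 := mul_le_mul_of_nonneg_left hu3 hw4
      linarith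
    have h2 : exp (-(w / 6 + w ^ 2 * u / 180 + w ^ 3 * u ^ 2 / 2835 + w ^ 4 * u ^ 3 / 26000)) =
        exp (-(w / 6)) * exp (-(w ^ 2 * u / 180 + w ^ 3 * u ^ 2 / 2835 + w ^ 4 * u ^ 3 / 26000)) := by
      rw [← Real.exp_add]; congr 1; ring
    rw [h2]
    have h3 : 1 - (α1 * u + α2 * u ^ 2) ≤
        exp (-(w ^ 2 * u / 180 + w ^ 3 * u ^ 2 / 2835 + w ^ 4 * u ^ 3 / 26000)) := by
      have := Real.add_one_le_exp (-(w ^ 2 * u / 180 + w ^ 3 * u ^ 2 / 2835 + w ^ 4 * u ^ 3 / 26000))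
      linarith
    have h4 : 0 ≤ 1 - (α1 * u + α2 * u ^ 2) := by
      have b1 : 0 ≤ α1 := le_trans (by positivity) A1
      have b2 : 0 ≤ α2 := le_trans (by positivity) A2
      have c1 := mul_le_mul_of_nonneg_left hu1 b1
      have c2 := mul_le_mul_of_nonneg_left hu4 b2
      linarith
    exact mul_le_mul H0 h3 h4 (exp_pos _).le
  -- Y0
  have y0 : exp (-(v / 6 + v ^ 2 * u / 180 + v ^ 3 * u ^ 2 / 2835)) ≤
      f0 * (1 - (γ1 * u + γ2 * u ^ 2) + (γ1 * u + γ2 * u ^ 2) ^ 2 / 2) := by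
    have h1 : γ1 * u + γ2 * u ^ 2 ≤ v ^ 2 * u / 180 + v ^ 3 * u ^ 2 / 2835 := by
      have a1 := mul_le_mul_of_nonneg_right G1 hu0
      have a2 := mul_le_mul_of_nonneg_right G2 hu2
      linarith
    have h2 : exp (-(v / 6 + v ^ 2 * u / 180 + v ^ 3 * u ^ 2 / 2835)) =
        exp (-(v / 6)) * exp (-(v ^ 2 * u / 180 + v ^ 3 * u ^ 2 / 2835)) := by
      rw [← Real.exp_add]; congr 1; ring
    rw [h2]
    have h5 : 0 ≤ γ1 * u + γ2 * u ^ 2 := by positivity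
    have h6 : γ1 * u + γ2 * u ^ 2 ≤ 1 := by
      have c1 := mul_le_mul_of_nonneg_left hu1 hγ1
      have c2 := mul_le_mul_of_nonneg_left hu4 hγ2
      linarith
    have h3 : exp (-(v ^ 2 * u / 180 + v ^ 3 * u ^ 2 / 2835)) ≤
        1 - (γ1 * u + γ2 * u ^ 2) + (γ1 * u + γ2 * u ^ 2) ^ 2 / 2 := by
      exact (exp_le_exp.mpr (neg_le_neg h1)).trans (exp_two h5 h6)
    exact mul_le_mul H1 h3 (exp_pos _).le (le_trans (exp_pos _).le H1)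
  -- Y1
  have y1 : f1 * (1 - (δ1 * u + δ2 * u ^ 2) + (δ1 * u + δ2 * u ^ 2) ^ 2 / 2 -
        (δ1 * u + δ2 * u ^ 2) ^ 3 / 6) ≤
      exp (-((9 * v) / 6 + (9 * v) ^ 2 * u / 180 + (9 * v) ^ 3 * u ^ 2 / 2835 +
        (9 * v) ^ 4 * u ^ 3 / 26000)) := by
    have h1 : (9 * v) ^ 2 * u / 180 + (9 * v) ^ 3 * u ^ 2 / 2835 + (9 * v) ^ 4 * u ^ 3 / 26000 ≤
        δ1 * u + δ2 * u ^ 2 := by
      have a1 := mul_le_mul_of_nonneg_right D1 hu0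
      have a2 := mul_le_mul_of_nonneg_right D2 hu2
      have a3 := mul_le_mul_of_nonneg_left hu3 hv4
      linarith
    have h2 : exp (-((9 * v) / 6 + (9 * v) ^ 2 * u / 180 + (9 * v) ^ 3 * u ^ 2 / 2835 +
        (9 * v) ^ 4 * u ^ 3 / 26000)) = exp (-((9 * v) / 6)) *
        exp (-((9 * v) ^ 2 * u / 180 + (9 * v) ^ 3 * u ^ 2 / 2835 + (9 * v) ^ 4 * u ^ 3 / 26000)) := by
      rw [← Real.exp_add]; congr 1; ring
    rw [h2]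
    have b1 : 0 ≤ δ1 := le_trans (by positivity) D1
    have b2 : 0 ≤ δ2 := le_trans (by positivity) D2
    have h5 : 0 ≤ δ1 * u + δ2 * u ^ 2 := by positivity
    have h6 : δ1 * u + δ2 * u ^ 2 ≤ 1 := by
      have c1 := mul_le_mul_of_nonneg_left hu1 b1
      have c2 := mul_le_mul_of_nonneg_left hu4 b2
      linarith
    have h3 : 1 - (δ1 * u + δ2 * u ^ 2) + (δ1 * u + δ2 * u ^ 2) ^ 2 / 2 -
        (δ1 * u + δ2 * u ^ 2) ^ 3 / 6 ≤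
        exp (-((9 * v) ^ 2 * u / 180 + (9 * v) ^ 3 * u ^ 2 / 2835 + (9 * v) ^ 4 * u ^ 3 / 26000)) :=
      (Pool.Agent.Helper88.Slab.exp_neg_ge3 _ h5).trans (exp_le_exp.mpr (neg_le_neg h1))
    have h4 : 0 ≤ 1 - (δ1 * u + δ2 * u ^ 2) + (δ1 * u + δ2 * u ^ 2) ^ 2 / 2 -
        (δ1 * u + δ2 * u ^ 2) ^ 3 / 6 := pos_three h6
    exact mul_le_mul H3 h3 h4 (exp_pos _).le
  -- X1
  have x1 : exp (-((9 * w) / 6 + (9 * w) ^ 2 * u / 180 + (9 * w) ^ 3 * u ^ 2 / 2835)) ≤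
      e1 * (1 - (β1 * u + β2 * u ^ 2) + (β1 * u + β2 * u ^ 2) ^ 2 / 2 -
        (β1 * u + β2 * u ^ 2) ^ 3 / 6 + (β1 * u + β2 * u ^ 2) ^ 4 / 24) := by
    have h1 : β1 * u + β2 * u ^ 2 ≤ (9 * w) ^ 2 * u / 180 + (9 * w) ^ 3 * u ^ 2 / 2835 := by
      have a1 := mul_le_mul_of_nonneg_right B1 hu0
      have a2 := mul_le_mul_of_nonneg_right B2 hu2
      linarith
    have h2 : exp (-((9 * w) / 6 + (9 * w) ^ 2 * u / 180 + (9 * w) ^ 3 * u ^ 2 / 2835)) =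
        exp (-((9 * w) / 6)) * exp (-((9 * w) ^ 2 * u / 180 + (9 * w) ^ 3 * u ^ 2 / 2835)) := by
      rw [← Real.exp_add]; congr 1; ring
    rw [h2]
    have h5 : 0 ≤ β1 * u + β2 * u ^ 2 := by positivity
    have h3 := (exp_le_exp.mpr (neg_le_neg h1)).trans (Pool.Agent.Helper88.Slab.exp_neg_le _ h5)
    exact mul_le_mul H2 h3 (exp_pos _).le (le_trans (exp_pos _).le H2)
  generalize e0 * (1 - (α1 * u + α2 * u ^ 2)) = p0 at x0 P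
  generalize f0 * (1 - (γ1 * u + γ2 * u ^ 2) + (γ1 * u + γ2 * u ^ 2) ^ 2 / 2) = p1 at y0 P
  generalize f1 * (1 - (δ1 * u + δ2 * u ^ 2) + (δ1 * u + δ2 * u ^ 2) ^ 2 / 2 -
        (δ1 * u + δ2 * u ^ 2) ^ 3 / 6) = p2 at y1 P
  generalize e1 * (1 - (β1 * u + β2 * u ^ 2) + (β1 * u + β2 * u ^ 2) ^ 2 / 2 -
        (β1 * u + β2 * u ^ 2) ^ 3 / 6 + (β1 * u + β2 * u ^ 2) ^ 4 / 24) = p3 at x1 P
  generalize exp (-(w / 6 + w ^ 2 * u / 180 + w ^ 3 * u ^ 2 / 2835 + w ^ 4 * u ^ 3 / 26000)) = q0 at x0 ⊢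
  generalize exp (-(v / 6 + v ^ 2 * u / 180 + v ^ 3 * u ^ 2 / 2835)) = q1 at y0 ⊢
  generalize exp (-((9 * v) / 6 + (9 * v) ^ 2 * u / 180 + (9 * v) ^ 3 * u ^ 2 / 2835 +
        (9 * v) ^ 4 * u ^ 3 / 26000)) = q2 at y1 ⊢
  generalize exp (-((9 * w) / 6 + (9 * w) ^ 2 * u / 180 + (9 * w) ^ 3 * u ^ 2 / 2835)) = q3 at x1 ⊢
  clear A1 A2 G1 G2 B1 B2 D1 D2 H0 H1 H2 H3 hu3 hu4 hu2 hw4 hv4 hγ hα hδ
  have y0' := mul_le_mul_of_nonneg_left y0 hκ0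
  have y1' := mul_le_mul_of_nonneg_left y1 hκ0
  have t1 := mul_le_mul_of_nonneg_left ht' hκ0
  have t2 : π * ε ≤ 3.141593 * g := by
    calc π * ε ≤ π * g := mul_le_mul_of_nonneg_left hg Real.pi_pos.le
      _ ≤ 3.141593 * g := mul_le_mul_of_nonneg_right hp2.le hg0
  have t3 : 3.141592 * (κ - 1) ≤ π * (κ - 1) :=
    mul_le_mul_of_nonneg_right hp1.le (by linarith)
  linarith

end Pool.Agent.Helper23.X2
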