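import Pool.Agent.Helper23.X2.Combine

/-!
Comparison of the probabilities of two slabs orthogonal to the diagonal (crossing, n at least 6).
-/

set_option autoImplicit false

open MeasureTheory Set Real
open Pool.Agent.Helper88.Slab (prob ind cube)
open Pool.Agent.Helper89.FA

namespace Pool.Agent.Helper23.X2

lemma sqrt_bd {w r : ℝ} (hr : 0 ≤ r) (h : w / 6 ≤ r ^ 2) : √(w / 6) ≤ r :=
  Real.sqrt_le_iff.mpr ⟨hr, h⟩

lemma cube_bd {w w0 b : ℝ} (h0 : 0 < w0) (h : w0 ≤ w) (hb : 1 ≤ b * (36972 * w0 ^ 3)) :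
    1 / (36972 * w ^ 3) ≤ b := by
  have h1 : w0 ^ 3 ≤ w ^ 3 := pow_le_pow_left₀ h0.le h 3
  have h2 : 0 < w0 ^ 3 := by positivity
  have h3 : 0 < 36972 * w0 ^ 3 := by positivity
  calc 1 / (36972 * w ^ 3) ≤ 1 / (36972 * w0 ^ 3) :=
        one_div_le_one_div_of_le h3 (by linarith)
    _ ≤ b := by rw [div_le_iff₀ h3]; exact hb

lemma tau_a1 {w : ℝ} (h : 2.195977 ≤ w) :
    exp (-(1 / 6 * 5 ^ 2 * w)) / 5 + exp (-(0.08 * 7 ^ 2 * w)) / 7 +
      exp (-(0.064 * 9 ^ 2 * w)) / 9 + 1 / (36972 * w ^ 3) ≤ 0.0000513 := by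
  have h5 : exp (-(1 / 6 * 5 ^ 2 * w)) ≤ 0.00010634 :=
    exp_up 9 (f := 0.1499) (by norm_num) (by push_cast; linarith) (by norm_num)
  have h7 : exp (-(0.08 * 7 ^ 2 * w)) ≤ 0.00018278 :=
    exp_up 8 (f := 0.60822) (by norm_num) (by push_cast; linarith) (by norm_num)
  have h9 : exp (-(0.064 * 9 ^ 2 * w)) ≤ 0.00001139 :=
    exp_up 11 (f := 0.38394) (by norm_num) (by push_cast; linarith) (by norm_num)
  have hl : 1 / (36972 * w ^ 3) ≤ 0.00000256 := cube_bd (by norm_num) h (by norm_num)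
  linarith

lemma tau_a2 {w : ℝ} (h : 2.002597 ≤ w) :
    exp (-(1 / 6 * 5 ^ 2 * w)) / 5 + exp (-(0.08 * 7 ^ 2 * w)) / 7 +
      exp (-(0.064 * 9 ^ 2 * w)) / 9 + 1 / (36972 * w ^ 3) ≤ 0.0001102 := by
  have h5 : exp (-(1 / 6 * 5 ^ 2 * w)) ≤ 0.00023803 :=
    exp_up 8 (f := 0.34415) (by norm_num) (by push_cast; linarith) (by norm_num)
  have h7 : exp (-(0.08 * 7 ^ 2 * w)) ≤ 0.00039008 :=
    exp_up 7 (f := 0.85018) (by norm_num) (by push_cast; linarith) (by norm_num)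
  have h9 : exp (-(0.064 * 9 ^ 2 * w)) ≤ 0.00003104 :=
    exp_up 10 (f := 0.38146) (by norm_num) (by push_cast; linarith) (by norm_num)
  have hl : 1 / (36972 * w ^ 3) ≤ 0.00000337 := cube_bd (by norm_num) h (by norm_num)
  linarith

lemma poly_a {u : ℝ} (hu0 : 0 ≤ u) (hu1 : u ≤ 1 / 6) :
    0 ≤ 3.141592 * (1.242 - 1) / 4 - 3.141593 * 0.00000026 - 1.242 * 0.0001102 - 0.0000513 +
      0.693505 * (1 - (0.026791 * u + 0.003885 * u ^ 2)) -
      1.242 * (0.716222 * (1 - (0.022279 * u + 0.002832 * u ^ 2) +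
        (0.022279 * u + 0.002832 * u ^ 2) ^ 2 / 2)) +
      1.242 * (0.049591 * (1 - (1.804682 * u + 2.741601 * u ^ 2) +
        (1.804682 * u + 2.741601 * u ^ 2) ^ 2 / 2 -
        (1.804682 * u + 2.741601 * u ^ 2) ^ 3 / 6)) / 3 -
      0.037107 * (1 - (2.170041 * u + 2.723063 * u ^ 2) +
        (2.170041 * u + 2.723063 * u ^ 2) ^ 2 / 2 -
        (2.170041 * u + 2.723063 * u ^ 2) ^ 3 / 6 +
        (2.170041 * u + 2.723063 * u ^ 2) ^ 4 / 24) / 3 := by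
  obtain ⟨s, rfl⟩ : ∃ s, u = 1 / 6 - s := ⟨1 / 6 - u, by ring⟩
  have hs0 : 0 ≤ s := by linarith
  have hs1 : s ≤ 1 / 6 := by linarith
  have p2 : 0 ≤ s ^ 2 := by positivity
  have p3 : 0 ≤ s ^ 3 := by positivity
  have p4 : 0 ≤ s ^ 4 := by positivity
  have p5 : 0 ≤ s ^ 5 := by positivity
  have p6 : 0 ≤ s ^ 6 := by positivity
  have p7 : 0 ≤ s ^ 7 := by positivity
  have q2 : s ^ 2 ≤ s / 6 := by
    have := mul_le_mul_of_nonneg_left hs1 hs0
    linarith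
  have q3 : s ^ 3 ≤ s ^ 2 / 6 := by
    have := mul_le_mul_of_nonneg_left hs1 p2
    linarith
  have q4 : s ^ 4 ≤ s ^ 3 / 6 := by
    have := mul_le_mul_of_nonneg_left hs1 p3
    linarith
  have q5 : s ^ 5 ≤ s ^ 4 / 6 := by
    have := mul_le_mul_of_nonneg_left hs1 p4
    linarith
  have q6 : s ^ 6 ≤ s ^ 5 / 6 := by
    have := mul_le_mul_of_nonneg_left hs1 p5
    linarith
  have q7 : s ^ 7 ≤ s ^ 6 / 6 := by
    have := mul_le_mul_of_nonneg_left hs1 p6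
    linarith
  have q8 : s ^ 8 ≤ s ^ 7 / 6 := by
    have := mul_le_mul_of_nonneg_left hs1 p7
    linarith
  have p8 : 0 ≤ s ^ 8 := by positivity
  linarith

/-- The crossing inequality, pair 1. -/
theorem crossing_a {n : ℕ} (hn : 6 ≤ n) {c : ℝ} (hc0 : 0 < c) (hc : (n : ℝ) * c ^ 2 = 1) :
    1 - prob (fun _ : Fin n => c) 1.06 ≤ 1.242 * (1 - prob (fun _ : Fin n => c) 1.11) := by
  have hn' : (6 : ℝ) ≤ (n : ℝ) := by exact_mod_cast hn
  have hcs : c ^ 2 ≤ 1 / 6 := by nlinarith [sq_nonneg c]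
  have hp1 := Real.pi_gt_d6
  have hp2 := Real.pi_lt_d6
  obtain ⟨w, hw⟩ : ∃ w, (π / (2 * 1.06)) ^ 2 = w := ⟨_, rfl⟩
  obtain ⟨v, hv⟩ : ∃ v, (π / (2 * 1.11)) ^ 2 = v := ⟨_, rfl⟩
  have hw' : w = π ^ 2 / 4.4944 := by rw [← hw, div_pow]; norm_num
  have hv' : v = π ^ 2 / 4.9284 := by rw [← hv, div_pow]; norm_num
  have hq1 : (3.141592 : ℝ) ^ 2 ≤ π ^ 2 := pow_le_pow_left₀ (by norm_num) hp1.le 2
  have hq2 : π ^ 2 ≤ (3.141593 : ℝ) ^ 2 := pow_le_pow_left₀ Real.pi_pos.le hp2.le 2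
  have hw0 : 2.195977 ≤ w := by rw [hw', le_div_iff₀ (by norm_num)]; linarith
  have hw1 : w ≤ 2.195979 := by rw [hw', div_le_iff₀ (by norm_num)]; linarith
  have hv0 : 2.002597 ≤ v := by rw [hv', le_div_iff₀ (by norm_num)]; linarith
  have hv1 : v ≤ 2.002599 := by rw [hv', div_le_iff₀ (by norm_num)]; linarith
  have sw : √(w / 6) ≤ 0.6056 := sqrt_bd (by norm_num) (by linarith)
  have sv : √(v / 6) ≤ 0.6056 := sqrt_bd (by norm_num) (by linarith)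
  have hU := T_le hn hc0 hc (t := 1.06) (c7 := 0.08) (by norm_num) hw (by linarith) (by linarith)
    (by norm_num) (fun z hz => abs_sinc_435 (hz.trans (by linarith)))
  have hL := T_ge hn hc0 hc (t := 1.11) (c7 := 0.08) (by norm_num) hv (by linarith) (by linarith)
    (by norm_num) (fun z hz => abs_sinc_435 (hz.trans (by linarith)))
  have pw2a : (2.195977 : ℝ) ^ 2 ≤ w ^ 2 := pow_le_pow_left₀ (by norm_num) hw0 2
  have pw3a : (2.195977 : ℝ) ^ 3 ≤ w ^ 3 := pow_le_pow_left₀ (by norm_num) hw0 3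
  have hwp : 0 ≤ w := by linarith
  have hvp : 0 ≤ v := by linarith
  have pw2b : w ^ 2 ≤ (2.195979 : ℝ) ^ 2 := pow_le_pow_left₀ hwp hw1 2
  have pw3b : w ^ 3 ≤ (2.195979 : ℝ) ^ 3 := pow_le_pow_left₀ hwp hw1 3
  have pw4b : w ^ 4 ≤ (2.195979 : ℝ) ^ 4 := pow_le_pow_left₀ hwp hw1 4
  have pv2a : (2.002597 : ℝ) ^ 2 ≤ v ^ 2 := pow_le_pow_left₀ (by norm_num) hv0 2
  have pv3a : (2.002597 : ℝ) ^ 3 ≤ v ^ 3 := pow_le_pow_left₀ (by norm_num) hv0 3
  have pv2b : v ^ 2 ≤ (2.002599 : ℝ) ^ 2 := pow_le_pow_left₀ hvp hv1 2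
  have pv3b : v ^ 3 ≤ (2.002599 : ℝ) ^ 3 := pow_le_pow_left₀ hvp hv1 3
  have pv4b : v ^ 4 ≤ (2.002599 : ℝ) ^ 4 := pow_le_pow_left₀ hvp hv1 4
  have H0 : 0.693505 ≤ exp (-(w / 6)) :=
    exp_lo 0 (f := 0.3659965) (by norm_num) (by norm_num) (by push_cast; linarith) (by norm_num)
  have H1 : exp (-(v / 6)) ≤ 0.716222 :=
    exp_up 0 (f := 0.3337661) (by norm_num) (by push_cast; linarith) (by norm_num)
  have H2 : exp (-((9 * w) / 6)) ≤ 0.037107 :=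
    exp_up 3 (f := 0.2939655) (by norm_num) (by push_cast; linarith) (by norm_num)
  have H3 : 0.049591 ≤ exp (-((9 * v) / 6)) :=
    exp_lo 3 (f := 0.0038985) (by norm_num) (by norm_num) (by push_cast; linarith) (by norm_num)
  have He : exp (-(27 / 2) * 1.06 ^ 2) ≤ 0.00000026 := by
    have := exp_up 15 (a := 27 / 2 * 1.06 ^ 2) (f := 0.1686) (b := 0.00000026) (by norm_num)
      (by norm_num) (by norm_num)
    rw [← neg_mul] at this
    exact this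
  refine final_step (κ := 1.242) (by norm_num) hU hL ?_
  exact combine (sq_nonneg c) hcs (by norm_num) hwp hvp H0 H1 H2 H3
    (α1 := 0.026791) (α2 := 0.003885) (γ1 := 0.022279) (γ2 := 0.002832)
    (β1 := 2.170041) (β2 := 2.723063) (δ1 := 1.804682) (δ2 := 2.741601)
    (by linarith) (by linarith) (by linarith) (by linarith) (by linarith) (by linarith)
    (by linarith) (by linarith) (by norm_num) (by norm_num) (by norm_num) (by norm_num)
    (by norm_num) (by norm_num) (by norm_num) (tau_a1 hw0) (tau_a2 hv0) He (by norm_num)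
    (poly_a (sq_nonneg c) hcs)

lemma tau_b1 {w : ℝ} (h : 2.115397 ≤ w) :
    exp (-(1 / 6 * 5 ^ 2 * w)) / 5 + exp (-(0.08 * 7 ^ 2 * w)) / 7 +
      exp (-(0.064 * 9 ^ 2 * w)) / 9 + 1 / (36972 * w ^ 3) ≤ 0.0000704 := by
  have h5 : exp (-(1 / 6 * 5 ^ 2 * w)) ≤ 0.00014877 :=
    exp_up 8 (f := 0.81415) (by norm_num) (by push_cast; linarith) (by norm_num)
  have h7 : exp (-(0.08 * 7 ^ 2 * w)) ≤ 0.00025068 :=
    exp_up 8 (f := 0.29235) (by norm_num) (by push_cast; linarith) (by norm_num)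
  have h9 : exp (-(0.064 * 9 ^ 2 * w)) ≤ 0.0000173 :=
    exp_up 10 (f := 0.96621) (by norm_num) (by push_cast; linarith) (by norm_num)
  have hl : 1 / (36972 * w ^ 3) ≤ 0.00000286 := cube_bd (by norm_num) h (by norm_num)
  linarith

lemma tau_b2 {w : ℝ} (h : 1.932336 ≤ w) :
    exp (-(1 / 6 * 5 ^ 2 * w)) / 5 + exp (-(0.08 * 7 ^ 2 * w)) / 7 +
      exp (-(0.064 * 9 ^ 2 * w)) / 9 + 1 / (36972 * w ^ 3) ≤ 0.000146 := by
  have h5 : exp (-(1 / 6 * 5 ^ 2 * w)) ≤ 0.00031898 :=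
    exp_up 8 (f := 0.0514) (by norm_num) (by push_cast; linarith) (by norm_num)
  have h7 : exp (-(0.08 * 7 ^ 2 * w)) ≤ 0.00051376 :=
    exp_up 7 (f := 0.57475) (by norm_num) (by push_cast; linarith) (by norm_num)
  have h9 : exp (-(0.064 * 9 ^ 2 * w)) ≤ 0.00004467 :=
    exp_up 10 (f := 0.01722) (by norm_num) (by push_cast; linarith) (by norm_num)
  have hl : 1 / (36972 * w ^ 3) ≤ 0.00000375 := cube_bd (by norm_num) h (by norm_num)
  linarith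

lemma poly_b {u : ℝ} (hu0 : 0 ≤ u) (hu1 : u ≤ 1 / 6) :
    0 ≤ 3.141592 * (1.25 - 1) / 4 - 3.141593 * 0.00000015 - 1.25 * 0.000146 - 0.0000704 +
      0.702881 * (1 - (0.024861 * u + 0.003468 * u ^ 2)) -
      1.25 * (0.724658 * (1 - (0.020744 * u + 0.002545 * u ^ 2) +
        (0.020744 * u + 0.002545 * u ^ 2) ^ 2 / 2)) +
      1.25 * (0.055103 * (1 - (1.680269 * u + 2.44172 * u ^ 2) +
        (1.680269 * u + 2.44172 * u ^ 2) ^ 2 / 2 -
        (1.680269 * u + 2.44172 * u ^ 2) ^ 3 / 6)) / 3 -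
      0.041874 * (1 - (2.013707 * u + 2.434165 * u ^ 2) +
        (2.013707 * u + 2.434165 * u ^ 2) ^ 2 / 2 -
        (2.013707 * u + 2.434165 * u ^ 2) ^ 3 / 6 +
        (2.013707 * u + 2.434165 * u ^ 2) ^ 4 / 24) / 3 := by
  obtain ⟨s, rfl⟩ : ∃ s, u = 1 / 6 - s := ⟨1 / 6 - u, by ring⟩
  have hs0 : 0 ≤ s := by linarith
  have hs1 : s ≤ 1 / 6 := by linarith
  have p2 : 0 ≤ s ^ 2 := by positivity
  have p3 : 0 ≤ s ^ 3 := by positivity
  have p4 : 0 ≤ s ^ 4 := by positivity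
  have p5 : 0 ≤ s ^ 5 := by positivity
  have p6 : 0 ≤ s ^ 6 := by positivity
  have p7 : 0 ≤ s ^ 7 := by positivity
  have q2 : s ^ 2 ≤ s / 6 := by
    have := mul_le_mul_of_nonneg_left hs1 hs0
    linarith
  have q3 : s ^ 3 ≤ s ^ 2 / 6 := by
    have := mul_le_mul_of_nonneg_left hs1 p2
    linarith
  have q4 : s ^ 4 ≤ s ^ 3 / 6 := by
    have := mul_le_mul_of_nonneg_left hs1 p3
    linarith
  have q5 : s ^ 5 ≤ s ^ 4 / 6 := by
    have := mul_le_mul_of_nonneg_left hs1 p4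
    linarith
  have q6 : s ^ 6 ≤ s ^ 5 / 6 := by
    have := mul_le_mul_of_nonneg_left hs1 p5
    linarith
  have q7 : s ^ 7 ≤ s ^ 6 / 6 := by
    have := mul_le_mul_of_nonneg_left hs1 p6
    linarith
  have q8 : s ^ 8 ≤ s ^ 7 / 6 := by
    have := mul_le_mul_of_nonneg_left hs1 p7
    linarith
  have p8 : 0 ≤ s ^ 8 := by positivity
  linarith

/-- The crossing inequality, pair 2. -/
theorem crossing_b {n : ℕ} (hn : 6 ≤ n) {c : ℝ} (hc0 : 0 < c) (hc : (n : ℝ) * c ^ 2 = 1) :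
    1 - prob (fun _ : Fin n => c) 1.08 ≤ 1.25 * (1 - prob (fun _ : Fin n => c) 1.13) := by
  have hn' : (6 : ℝ) ≤ (n : ℝ) := by exact_mod_cast hn
  have hcs : c ^ 2 ≤ 1 / 6 := by nlinarith [sq_nonneg c]
  have hp1 := Real.pi_gt_d6
  have hp2 := Real.pi_lt_d6
  obtain ⟨w, hw⟩ : ∃ w, (π / (2 * 1.08)) ^ 2 = w := ⟨_, rfl⟩
  obtain ⟨v, hv⟩ : ∃ v, (π / (2 * 1.13)) ^ 2 = v := ⟨_, rfl⟩
  have hw' : w = π ^ 2 / 4.6656 := by rw [← hw, div_pow]; norm_num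
  have hv' : v = π ^ 2 / 5.1076 := by rw [← hv, div_pow]; norm_num
  have hq1 : (3.141592 : ℝ) ^ 2 ≤ π ^ 2 := pow_le_pow_left₀ (by norm_num) hp1.le 2
  have hq2 : π ^ 2 ≤ (3.141593 : ℝ) ^ 2 := pow_le_pow_left₀ Real.pi_pos.le hp2.le 2
  have hw0 : 2.115397 ≤ w := by rw [hw', le_div_iff₀ (by norm_num)]; linarith
  have hw1 : w ≤ 2.1154 := by rw [hw', div_le_iff₀ (by norm_num)]; linarith
  have hv0 : 1.932336 ≤ v := by rw [hv', le_div_iff₀ (by norm_num)]; linarith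
  have hv1 : v ≤ 1.932338 := by rw [hv', div_le_iff₀ (by norm_num)]; linarith
  have sw : √(w / 6) ≤ 0.6056 := sqrt_bd (by norm_num) (by linarith)
  have sv : √(v / 6) ≤ 0.6056 := sqrt_bd (by norm_num) (by linarith)
  have hU := T_le hn hc0 hc (t := 1.08) (c7 := 0.08) (by norm_num) hw (by linarith) (by linarith)
    (by norm_num) (fun z hz => abs_sinc_435 (hz.trans (by linarith)))
  have hL := T_ge hn hc0 hc (t := 1.13) (c7 := 0.08) (by norm_num) hv (by linarith) (by linarith)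
    (by norm_num) (fun z hz => abs_sinc_435 (hz.trans (by linarith)))
  have pw2a : (2.115397 : ℝ) ^ 2 ≤ w ^ 2 := pow_le_pow_left₀ (by norm_num) hw0 2
  have pw3a : (2.115397 : ℝ) ^ 3 ≤ w ^ 3 := pow_le_pow_left₀ (by norm_num) hw0 3
  have hwp : 0 ≤ w := by linarith
  have hvp : 0 ≤ v := by linarith
  have pw2b : w ^ 2 ≤ (2.1154 : ℝ) ^ 2 := pow_le_pow_left₀ hwp hw1 2
  have pw3b : w ^ 3 ≤ (2.1154 : ℝ) ^ 3 := pow_le_pow_left₀ hwp hw1 3
  have pw4b : w ^ 4 ≤ (2.1154 : ℝ) ^ 4 := pow_le_pow_left₀ hwp hw1 4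
  have pv2a : (1.932336 : ℝ) ^ 2 ≤ v ^ 2 := pow_le_pow_left₀ (by norm_num) hv0 2
  have pv3a : (1.932336 : ℝ) ^ 3 ≤ v ^ 3 := pow_le_pow_left₀ (by norm_num) hv0 3
  have pv2b : v ^ 2 ≤ (1.932338 : ℝ) ^ 2 := pow_le_pow_left₀ hvp hv1 2
  have pv3b : v ^ 3 ≤ (1.932338 : ℝ) ^ 3 := pow_le_pow_left₀ hvp hv1 3
  have pv4b : v ^ 4 ≤ (1.932338 : ℝ) ^ 4 := pow_le_pow_left₀ hvp hv1 4
  have H0 : 0.702881 ≤ exp (-(w / 6)) :=
    exp_lo 0 (f := 0.3525667) (by norm_num) (by norm_num) (by push_cast; linarith) (by norm_num)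
  have H1 : exp (-(v / 6)) ≤ 0.724658 :=
    exp_up 0 (f := 0.322056) (by norm_num) (by push_cast; linarith) (by norm_num)
  have H2 : exp (-((9 * w) / 6)) ≤ 0.041874 :=
    exp_up 3 (f := 0.1730955) (by norm_num) (by push_cast; linarith) (by norm_num)
  have H3 : 0.055103 ≤ exp (-((9 * v) / 6)) :=
    exp_lo 2 (f := 0.898507) (by norm_num) (by norm_num) (by push_cast; linarith) (by norm_num)
  have He : exp (-(27 / 2) * 1.08 ^ 2) ≤ 0.00000015 := by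
    have := exp_up 15 (a := 27 / 2 * 1.08 ^ 2) (f := 0.7464) (b := 0.00000015) (by norm_num)
      (by norm_num) (by norm_num)
    rw [← neg_mul] at this
    exact this
  refine final_step (κ := 1.25) (by norm_num) hU hL ?_
  exact combine (sq_nonneg c) hcs (by norm_num) hwp hvp H0 H1 H2 H3
    (α1 := 0.024861) (α2 := 0.003468) (γ1 := 0.020744) (γ2 := 0.002545)
    (β1 := 2.013707) (β2 := 2.434165) (δ1 := 1.680269) (δ2 := 2.44172)
    (by linarith) (by linarith) (by linarith) (by linarith) (by linarith) (by linarith)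
    (by linarith) (by linarith) (by norm_num) (by norm_num) (by norm_num) (by norm_num)
    (by norm_num) (by norm_num) (by norm_num) (tau_b1 hw0) (tau_b2 hv0) He (by norm_num)
    (poly_b (sq_nonneg c) hcs)

lemma tau_c1 {w : ℝ} (h : 2.039173 ≤ w) :
    exp (-(1 / 6 * 5 ^ 2 * w)) / 5 + exp (-(0.08 * 7 ^ 2 * w)) / 7 +
      exp (-(0.064 * 9 ^ 2 * w)) / 9 + 1 / (36972 * w ^ 3) ≤ 0.0000953 := by
  have h5 : exp (-(1 / 6 * 5 ^ 2 * w)) ≤ 0.00020438 :=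
    exp_up 8 (f := 0.49655) (by norm_num) (by push_cast; linarith) (by norm_num)
  have h7 : exp (-(0.08 * 7 ^ 2 * w)) ≤ 0.00033797 :=
    exp_up 7 (f := 0.99355) (by norm_num) (by push_cast; linarith) (by norm_num)
  have h9 : exp (-(0.064 * 9 ^ 2 * w)) ≤ 0.00002568 :=
    exp_up 10 (f := 0.57107) (by norm_num) (by push_cast; linarith) (by norm_num)
  have hl : 1 / (36972 * w ^ 3) ≤ 0.00000319 := cube_bd (by norm_num) h (by norm_num)
  linarith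

lemma tau_c2 {w : ℝ} (h : 1.865708 ≤ w) :
    exp (-(1 / 6 * 5 ^ 2 * w)) / 5 + exp (-(0.1105 * 7 ^ 2 * w)) / 7 +
      exp (-(0.064 * 9 ^ 2 * w)) / 9 + 1 / (36972 * w ^ 3) ≤ 0.0001013 := by
  have h5 : exp (-(1 / 6 * 5 ^ 2 * w)) ≤ 0.00042104 :=
    exp_up 7 (f := 0.77378) (by norm_num) (by push_cast; linarith) (by norm_num)
  have h7 : exp (-(0.1105 * 7 ^ 2 * w)) ≤ 0.00004105 :=
    exp_up 10 (f := 0.10187) (by norm_num) (by push_cast; linarith) (by norm_num)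
  have h9 : exp (-(0.064 * 9 ^ 2 * w)) ≤ 0.0000631 :=
    exp_up 9 (f := 0.67183) (by norm_num) (by push_cast; linarith) (by norm_num)
  have hl : 1 / (36972 * w ^ 3) ≤ 0.00000417 := cube_bd (by norm_num) h (by norm_num)
  linarith

lemma poly_c {u : ℝ} (hu0 : 0 ≤ u) (hu1 : u ≤ 1 / 6) :
    0 ≤ 3.141592 * (1.2586 - 1) / 4 - 3.141593 * 0.00000009 - 1.2586 * 0.0001013 - 0.0000953 +
      0.711868 * (1 - (0.023102 * u + 0.003102 * u ^ 2)) -
      1.2586 * (0.73275 * (1 - (0.019338 * u + 0.00229 * u ^ 2) +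
        (0.019338 * u + 0.00229 * u ^ 2) ^ 2 / 2)) +
      1.2586 * (0.060895 * (1 - (1.566395 * u + 2.179559 * u ^ 2) +
        (1.566395 * u + 2.179559 * u ^ 2) ^ 2 / 2 -
        (1.566395 * u + 2.179559 * u ^ 2) ^ 3 / 6)) / 3 -
      0.046946 * (1 - (1.871201 * u + 2.180402 * u ^ 2) +
        (1.871201 * u + 2.180402 * u ^ 2) ^ 2 / 2 -
        (1.871201 * u + 2.180402 * u ^ 2) ^ 3 / 6 +
        (1.871201 * u + 2.180402 * u ^ 2) ^ 4 / 24) / 3 := by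
  obtain ⟨s, rfl⟩ : ∃ s, u = 1 / 6 - s := ⟨1 / 6 - u, by ring⟩
  have hs0 : 0 ≤ s := by linarith
  have hs1 : s ≤ 1 / 6 := by linarith
  have p2 : 0 ≤ s ^ 2 := by positivity
  have p3 : 0 ≤ s ^ 3 := by positivity
  have p4 : 0 ≤ s ^ 4 := by positivity
  have p5 : 0 ≤ s ^ 5 := by positivity
  have p6 : 0 ≤ s ^ 6 := by positivity
  have p7 : 0 ≤ s ^ 7 := by positivity
  have q2 : s ^ 2 ≤ s / 6 := by
    have := mul_le_mul_of_nonneg_left hs1 hs0
    linarith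
  have q3 : s ^ 3 ≤ s ^ 2 / 6 := by
    have := mul_le_mul_of_nonneg_left hs1 p2
    linarith
  have q4 : s ^ 4 ≤ s ^ 3 / 6 := by
    have := mul_le_mul_of_nonneg_left hs1 p3
    linarith
  have q5 : s ^ 5 ≤ s ^ 4 / 6 := by
    have := mul_le_mul_of_nonneg_left hs1 p4
    linarith
  have q6 : s ^ 6 ≤ s ^ 5 / 6 := by
    have := mul_le_mul_of_nonneg_left hs1 p5
    linarith
  have q7 : s ^ 7 ≤ s ^ 6 / 6 := by
    have := mul_le_mul_of_nonneg_left hs1 p6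
    linarith
  have q8 : s ^ 8 ≤ s ^ 7 / 6 := by
    have := mul_le_mul_of_nonneg_left hs1 p7
    linarith
  have p8 : 0 ≤ s ^ 8 := by positivity
  linarith

/-- The crossing inequality, pair 3. -/
theorem crossing_c {n : ℕ} (hn : 6 ≤ n) {c : ℝ} (hc0 : 0 < c) (hc : (n : ℝ) * c ^ 2 = 1) :
    1 - prob (fun _ : Fin n => c) 1.10 ≤ 1.2586 * (1 - prob (fun _ : Fin n => c) 1.15) := by
  have hn' : (6 : ℝ) ≤ (n : ℝ) := by exact_mod_cast hn
  have hcs : c ^ 2 ≤ 1 / 6 := by nlinarith [sq_nonneg c]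
  have hp1 := Real.pi_gt_d6
  have hp2 := Real.pi_lt_d6
  obtain ⟨w, hw⟩ : ∃ w, (π / (2 * 1.10)) ^ 2 = w := ⟨_, rfl⟩
  obtain ⟨v, hv⟩ : ∃ v, (π / (2 * 1.15)) ^ 2 = v := ⟨_, rfl⟩
  have hw' : w = π ^ 2 / 4.84 := by rw [← hw, div_pow]; norm_num
  have hv' : v = π ^ 2 / 5.29 := by rw [← hv, div_pow]; norm_num
  have hq1 : (3.141592 : ℝ) ^ 2 ≤ π ^ 2 := pow_le_pow_left₀ (by norm_num) hp1.le 2
  have hq2 : π ^ 2 ≤ (3.141593 : ℝ) ^ 2 := pow_le_pow_left₀ Real.pi_pos.le hp2.le 2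
  have hw0 : 2.039173 ≤ w := by rw [hw', le_div_iff₀ (by norm_num)]; linarith
  have hw1 : w ≤ 2.039175 := by rw [hw', div_le_iff₀ (by norm_num)]; linarith
  have hv0 : 1.865708 ≤ v := by rw [hv', le_div_iff₀ (by norm_num)]; linarith
  have hv1 : v ≤ 1.865711 := by rw [hv', div_le_iff₀ (by norm_num)]; linarith
  have sw : √(w / 6) ≤ 0.6056 := sqrt_bd (by norm_num) (by linarith)
  have sv : √(v / 6) ≤ 0.558 := sqrt_bd (by norm_num) (by linarith)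
  have hU := T_le hn hc0 hc (t := 1.10) (c7 := 0.08) (by norm_num) hw (by linarith) (by linarith)
    (by norm_num) (fun z hz => abs_sinc_435 (hz.trans (by linarith)))
  have hL := T_ge hn hc0 hc (t := 1.15) (c7 := 0.1105) (by norm_num) hv (by linarith) (by linarith)
    (by norm_num) (fun z hz => abs_sinc_393 (hz.trans (by linarith)))
  have pw2a : (2.039173 : ℝ) ^ 2 ≤ w ^ 2 := pow_le_pow_left₀ (by norm_num) hw0 2
  have pw3a : (2.039173 : ℝ) ^ 3 ≤ w ^ 3 := pow_le_pow_left₀ (by norm_num) hw0 3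
  have hwp : 0 ≤ w := by linarith
  have hvp : 0 ≤ v := by linarith
  have pw2b : w ^ 2 ≤ (2.039175 : ℝ) ^ 2 := pow_le_pow_left₀ hwp hw1 2
  have pw3b : w ^ 3 ≤ (2.039175 : ℝ) ^ 3 := pow_le_pow_left₀ hwp hw1 3
  have pw4b : w ^ 4 ≤ (2.039175 : ℝ) ^ 4 := pow_le_pow_left₀ hwp hw1 4
  have pv2a : (1.865708 : ℝ) ^ 2 ≤ v ^ 2 := pow_le_pow_left₀ (by norm_num) hv0 2
  have pv3a : (1.865708 : ℝ) ^ 3 ≤ v ^ 3 := pow_le_pow_left₀ (by norm_num) hv0 3
  have pv2b : v ^ 2 ≤ (1.865711 : ℝ) ^ 2 := pow_le_pow_left₀ hvp hv1 2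
  have pv3b : v ^ 3 ≤ (1.865711 : ℝ) ^ 3 := pow_le_pow_left₀ hvp hv1 3
  have pv4b : v ^ 4 ≤ (1.865711 : ℝ) ^ 4 := pow_le_pow_left₀ hvp hv1 4
  have H0 : 0.711868 ≤ exp (-(w / 6)) :=
    exp_lo 0 (f := 0.3398625) (by norm_num) (by norm_num) (by push_cast; linarith) (by norm_num)
  have H1 : exp (-(v / 6)) ≤ 0.73275 :=
    exp_up 0 (f := 0.3109513) (by norm_num) (by push_cast; linarith) (by norm_num)
  have H2 : exp (-((9 * w) / 6)) ≤ 0.046946 :=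
    exp_up 3 (f := 0.0587595) (by norm_num) (by push_cast; linarith) (by norm_num)
  have H3 : 0.060895 ≤ exp (-((9 * v) / 6)) :=
    exp_lo 2 (f := 0.7985665) (by norm_num) (by norm_num) (by push_cast; linarith) (by norm_num)
  have He : exp (-(27 / 2) * 1.10 ^ 2) ≤ 0.00000009 := by
    have := exp_up 16 (a := 27 / 2 * 1.10 ^ 2) (f := 0.335) (b := 0.00000009) (by norm_num)
      (by norm_num) (by norm_num)
    rw [← neg_mul] at this
    exact this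
  refine final_step (κ := 1.2586) (by norm_num) hU hL ?_
  exact combine (sq_nonneg c) hcs (by norm_num) hwp hvp H0 H1 H2 H3
    (α1 := 0.023102) (α2 := 0.003102) (γ1 := 0.019338) (γ2 := 0.00229)
    (β1 := 1.871201) (β2 := 2.180402) (δ1 := 1.566395) (δ2 := 2.179559)
    (by linarith) (by linarith) (by linarith) (by linarith) (by linarith) (by linarith)
    (by linarith) (by linarith) (by norm_num) (by norm_num) (by norm_num) (by norm_num)
    (by norm_num) (by norm_num) (by norm_num) (tau_c1 hw0) (tau_c2 hv0) He (by norm_num)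
    (poly_c (sq_nonneg c) hcs)

end Pool.Agent.Helper23.X2
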