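import Mathlib.Analysis.Real.Pi.Bounds
import Pool.Agent.Helper81.FA.SincLe6

/-!
Eighth order lower bound of `sinc` on `[-1.75, 1.75]`, from the Euler product.
-/

set_option autoImplicit false

open Set Real Filter Topology

namespace Pool.Agent.Helper23.X2

open Pool.Agent.Helper89.FA

lemma bernoulli'_seven' : bernoulli' 7 = 0 :=
  bernoulli'_eq_zero_of_odd (by decide) (by norm_num)

lemma bernoulli'_eight' : bernoulli' 8 = -1 / 30 := by
  have h2 : Nat.choose 8 2 = 28 := by decide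
  have h3 : Nat.choose 8 3 = 56 := by decide
  have h4 : Nat.choose 8 4 = 70 := by decide
  have h5 : Nat.choose 8 5 = 56 := by decide
  have h6 : Nat.choose 8 6 = 28 := by decide
  have h7 : Nat.choose 8 7 = 8 := by decide
  rw [bernoulli'_def]
  norm_num [Finset.sum_range_succ, Finset.sum_range_zero, h2, h3, h4, h5, h6, h7,
    S6.bernoulli'_five', S6.bernoulli'_six', bernoulli'_seven']

lemma hasSum_zeta_eight : HasSum (fun n : ℕ => (1 : ℝ) / (n : ℝ) ^ 8) (π ^ 8 / 9450) := by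
  convert! hasSum_zeta_nat four_ne_zero using 1
  simp only [Nat.reduceAdd, Nat.reduceMul, Nat.reduceSub]
  rw [bernoulli_eq_bernoulli'_of_ne_one, bernoulli'_eight']
  · simp [Nat.factorial]; ring
  · decide

lemma exp_le_one_sub {u q : ℝ} (h0 : 0 ≤ u) (hu : u ≤ q) (h1 : q < 1) :
    exp (-(u + u ^ 2 / 2 + u ^ 3 / 3 + u ^ 4 / (4 * (1 - q)))) ≤ 1 - u := by
  have hu1 : u < 1 := by linarith
  have hs := hasSum_pow_div_log_of_abs_lt_one (x := u) (by rwa [abs_of_nonneg h0])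
  have h2 := (hasSum_nat_add_iff' 3).mpr hs
  have h3 : HasSum (fun k : ℕ => u ^ 4 / 4 * u ^ k) (u ^ 4 / 4 * (1 - u)⁻¹) :=
    (hasSum_geometric_of_lt_one h0 hu1).mul_left _
  have h4 := hasSum_le (fun k => ?_) h2 h3
  · have h5 : ∑ i ∈ Finset.range 3, u ^ (i + 1) / ((i : ℝ) + 1) = u + u ^ 2 / 2 + u ^ 3 / 3 := by
      simp only [Finset.sum_range_succ, Finset.sum_range_zero]
      norm_num
    rw [h5] at h4
    have h6 : u ^ 4 / 4 * (1 - u)⁻¹ ≤ u ^ 4 / (4 * (1 - q)) := by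
      rw [← div_eq_mul_inv, div_div]
      apply div_le_div_of_nonneg_left (by positivity) (by linarith) (by linarith)
    rw [← exp_log (show (0 : ℝ) < 1 - u by linarith), exp_le_exp]
    linarith
  · have e : u ^ (k + 3 + 1) = u ^ 4 * u ^ k := by ring
    rw [e]
    have hk : (0 : ℝ) ≤ u ^ 4 * u ^ k := by positivity
    have hk2 : (4 : ℝ) ≤ ((k + 3 : ℕ) : ℝ) + 1 := by
      push_cast
      have := Nat.cast_nonneg (α := ℝ) k
      linarith
    calc u ^ 4 * u ^ k / (((k + 3 : ℕ) : ℝ) + 1) ≤ u ^ 4 * u ^ k / 4 :=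
          div_le_div_of_nonneg_left hk (by norm_num) hk2
      _ = u ^ 4 / 4 * u ^ k := by ring

/-- Eighth order lower bound. -/
theorem sinc_ge8 {y : ℝ} (hy : |y| ≤ 1.75) :
    exp (-(y ^ 2 / 6 + y ^ 4 / 180 + y ^ 6 / 2835 + y ^ 8 / 26000)) ≤ sinc y := by
  rcases eq_or_ne y 0 with rfl | hy0
  · simp
  have hpi := pi_pos
  have hpi3 := Real.pi_gt_d6
  obtain ⟨x, hxy⟩ : ∃ x, y = π * x := ⟨y / π, by field_simp⟩
  have hx0 : x ≠ 0 := fun h => hy0 (by rw [hxy, h, mul_zero])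
  have hq : x ^ 2 ≤ 0.3104 := by
    have h1 : y ^ 2 ≤ 1.75 ^ 2 := by
      rw [← sq_abs]
      exact pow_le_pow_left₀ (abs_nonneg _) hy 2
    rw [hxy, mul_pow] at h1
    have h2 : (3.141592 : ℝ) ^ 2 ≤ π ^ 2 := pow_le_pow_left₀ (by norm_num) hpi3.le 2
    have h3 : (0 : ℝ) ≤ x ^ 2 := sq_nonneg x
    nlinarith
  have hy1 : π * x ≠ 0 := by rw [← hxy]; exact hy0
  rw [sinc_of_ne_zero hy0, hxy]
  have hprod := tendsto_euler_sin_prod x
  have hprod' : Tendsto (fun n : ℕ => ∏ j ∈ Finset.range n, ((1 : ℝ) - x ^ 2 / ((j : ℝ) + 1) ^ 2))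
      atTop (𝓝 (sin (π * x) / (π * x))) := by
    refine (hprod.div_const (π * x)).congr fun n => ?_
    rw [mul_comm (π * x), mul_div_assoc, div_self hy1, mul_one]
  have h2 := ((S6.shift_hasSum two_ne_zero hasSum_zeta_two).mul_left (x ^ 2)).add
    (((S6.shift_hasSum four_ne_zero hasSum_zeta_four).mul_left (x ^ 4 / 2)).add
      (((S6.shift_hasSum (by norm_num) S6.hasSum_zeta_six).mul_left (x ^ 6 / 3)).add
        ((S6.shift_hasSum (by norm_num) hasSum_zeta_eight).mul_left (x ^ 8 / (4 * (1 - 0.3104))))))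
  have h3 := h2.tendsto_sum_nat
  have h4 : Tendsto (fun n : ℕ => exp (-∑ i ∈ Finset.range n,
      (x ^ 2 * (1 / ((i : ℝ) + 1) ^ 2) + (x ^ 4 / 2 * (1 / ((i : ℝ) + 1) ^ 4) +
        (x ^ 6 / 3 * (1 / ((i : ℝ) + 1) ^ 6) +
          x ^ 8 / (4 * (1 - 0.3104)) * (1 / ((i : ℝ) + 1) ^ 8)))))) atTop
      (𝓝 (exp (-(x ^ 2 * (π ^ 2 / 6) + (x ^ 4 / 2 * (π ^ 4 / 90) + (x ^ 6 / 3 * (π ^ 6 / 945) +
        x ^ 8 / (4 * (1 - 0.3104)) * (π ^ 8 / 9450))))))) :=
    (continuous_exp.tendsto _).comp h3.neg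
  have h5 := le_of_tendsto_of_tendsto' h4 hprod' fun n => by
    rw [← Finset.sum_neg_distrib, exp_sum]
    refine Finset.prod_le_prod (fun j _ => (exp_pos _).le) fun j _ => ?_
    have hu : x ^ 2 / ((j : ℝ) + 1) ^ 2 ≤ 0.3104 := by
      refine (div_le_self (by positivity) ?_).trans hq
      nlinarith [Nat.cast_nonneg (α := ℝ) j]
    refine (le_of_eq ?_).trans (exp_le_one_sub (by positivity) hu (by norm_num))
    congr 2
    field_simp
    ring
  refine le_trans (exp_le_exp.mpr ?_) h5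
  have e : π ^ 8 * x ^ 8 = (π * x) ^ 8 := by ring
  have h6 : 0 ≤ (π * x) ^ 8 := by positivity
  rw [← hxy] at h6 e ⊢
  have e1 : y ^ 2 = π ^ 2 * x ^ 2 := by rw [hxy]; ring
  have e2 : y ^ 4 = π ^ 4 * x ^ 4 := by rw [hxy]; ring
  have e3 : y ^ 6 = π ^ 6 * x ^ 6 := by rw [hxy]; ring
  have e4 : x ^ 8 / (4 * (1 - 0.3104)) * (π ^ 8 / 9450) = y ^ 8 / (4 * (1 - 0.3104) * 9450) := by
    rw [← e]
    ring
  have e5 : y ^ 8 / (4 * (1 - 0.3104) * 9450) ≤ y ^ 8 / 26000 :=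
    div_le_div_of_nonneg_left h6 (by norm_num) (by norm_num)
  rw [e1, e2, e3, e4]
  linarith

end Pool.Agent.Helper23.X2
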